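import Mathlib

/-!
A distributed spectral pair in `{0,…,23}` which is a spectral pair neither in `ℤ_24` nor in
`ℤ_576`.
-/

namespace Pool.Agent.Results.MP_2c87a3_an.ModulusTwentyFour

/-- `ν̂_E(ξ) = |E|⁻¹ ∑_{a ∈ E} exp(-2πi ξ a)` for a finite set `E` of integers. -/
noncomputable def nuHat (E : Finset ℤ) (ξ : ℝ) : ℂ :=
  ((E.card : ℕ) : ℂ)⁻¹ * ∑ a ∈ E, Complex.exp (-(2 * (Real.pi : ℂ) * Complex.I * (ξ : ℂ) * (a : ℂ)))

/-- `(A, B)` is a spectral pair in `ℤ_N`. -/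
def IsSpectralPair (N : ℕ) (A B : Finset ℤ) : Prop :=
  ∀ b ∈ B, ∀ b' ∈ B, b ≠ b' → nuHat A (((b : ℝ) - b') / N) = 0

/-- `(A, B)` is a distributed spectral pair (with modulus `M`). -/
def IsDistributed (M : ℕ) (A B : Finset ℤ) : Prop :=
  ∀ b ∈ B, ∀ b' ∈ B, b ≠ b' →
    nuHat A (((b : ℝ) - b') / M) = 0 ∨
    ∀ c ∈ B, ∀ c' ∈ B, nuHat A (((b : ℝ) - b') / (M : ℝ) ^ 2 + ((c : ℝ) - c') / M) = 0

/-- The set `A = {0, 4, 16, 20}`. -/
def SA : Finset ℤ := {0, 4, 16, 20}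

/-- The set `B = {0, 3, 18, 21}`. -/
def SB : Finset ℤ := {0, 3, 18, 21}

lemma nuHat_SA (ξ : ℝ) : nuHat SA ξ =
    (1 + Complex.exp (-(2 * (Real.pi : ℂ) * Complex.I * ((4 * ξ : ℝ) : ℂ)))) *
    (1 + Complex.exp (-(2 * (Real.pi : ℂ) * Complex.I * ((16 * ξ : ℝ) : ℂ)))) / 4 := by
  have hc : SA.card = 4 := by decide
  unfold nuHat
  rw [hc]
  have hs : ∑ a ∈ SA, Complex.exp (-(2 * (Real.pi : ℂ) * Complex.I * (ξ : ℂ) * (a : ℂ)))
      = Complex.exp (-(2 * (Real.pi : ℂ) * Complex.I * (ξ : ℂ) * ((0 : ℤ) : ℂ)))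
      + (Complex.exp (-(2 * (Real.pi : ℂ) * Complex.I * (ξ : ℂ) * ((4 : ℤ) : ℂ)))
      + (Complex.exp (-(2 * (Real.pi : ℂ) * Complex.I * (ξ : ℂ) * ((16 : ℤ) : ℂ)))
      + Complex.exp (-(2 * (Real.pi : ℂ) * Complex.I * (ξ : ℂ) * ((20 : ℤ) : ℂ))))) := by
    unfold SA
    rw [Finset.sum_insert (by decide), Finset.sum_insert (by decide), Finset.sum_insert (by decide),
      Finset.sum_singleton]
  rw [hs]
  have h20 : Complex.exp (-(2 * (Real.pi : ℂ) * Complex.I * (ξ : ℂ) * ((20 : ℤ) : ℂ)))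
      = Complex.exp (-(2 * (Real.pi : ℂ) * Complex.I * ((4 * ξ : ℝ) : ℂ)))
        * Complex.exp (-(2 * (Real.pi : ℂ) * Complex.I * ((16 * ξ : ℝ) : ℂ))) := by
    rw [← Complex.exp_add]; congr 1; push_cast; ring
  have h4 : Complex.exp (-(2 * (Real.pi : ℂ) * Complex.I * (ξ : ℂ) * ((4 : ℤ) : ℂ)))
      = Complex.exp (-(2 * (Real.pi : ℂ) * Complex.I * ((4 * ξ : ℝ) : ℂ))) := by
    congr 1; push_cast; ring
  have h16 : Complex.exp (-(2 * (Real.pi : ℂ) * Complex.I * (ξ : ℂ) * ((16 : ℤ) : ℂ)))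
      = Complex.exp (-(2 * (Real.pi : ℂ) * Complex.I * ((16 * ξ : ℝ) : ℂ))) := by
    congr 1; push_cast; ring
  rw [h20, h4, h16]
  simp only [Int.cast_zero, mul_zero, neg_zero, Complex.exp_zero, Nat.cast_ofNat]
  ring

lemma exp_half (x : ℝ) (k : ℤ) (h : x = k + 1 / 2) :
    Complex.exp (-(2 * (Real.pi : ℂ) * Complex.I * (x : ℂ))) = -1 := by
  have h1 : -(2 * (Real.pi : ℂ) * Complex.I * (x : ℂ))
      = -((Real.pi : ℂ) * Complex.I) + ((-k : ℤ) : ℂ) * (2 * (Real.pi : ℂ) * Complex.I) := by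
    rw [h]; push_cast; ring
  rw [h1, Complex.exp_add, Complex.exp_int_mul_two_pi_mul_I, Complex.exp_neg, Complex.exp_pi_mul_I]
  norm_num

lemma zero_of4 (ξ : ℝ) (k : ℤ) (h : 4 * ξ = k + 1 / 2) : nuHat SA ξ = 0 := by
  rw [nuHat_SA, exp_half _ k h]; simp

lemma zero_of16 (ξ : ℝ) (k : ℤ) (h : 16 * ξ = k + 1 / 2) : nuHat SA ξ = 0 := by
  rw [nuHat_SA, exp_half (16 * ξ) k h]; simp

lemma factor_ne (x : ℝ) (h0 : 0 ≤ x) (h1 : x < 1 / 4) :
    1 + Complex.exp (-(2 * (Real.pi : ℂ) * Complex.I * (x : ℂ))) ≠ 0 := by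
  intro h
  have h2 := congrArg Complex.re h
  have h3 : (Complex.exp (-(2 * (Real.pi : ℂ) * Complex.I * (x : ℂ)))).re
      = Real.cos (2 * Real.pi * x) := by
    have : -(2 * (Real.pi : ℂ) * Complex.I * (x : ℂ))
        = ((-(2 * Real.pi * x) : ℝ) : ℂ) * Complex.I := by push_cast; ring
    rw [this, Complex.exp_ofReal_mul_I_re, Real.cos_neg]
  rw [Complex.add_re, Complex.one_re, h3, Complex.zero_re] at h2
  have h4 : 0 < Real.cos (2 * Real.pi * x) := by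
    apply Real.cos_pos_of_mem_Ioo
    constructor
    · nlinarith [Real.pi_pos]
    · nlinarith [Real.pi_pos]
  linarith

/-- **Disproof.** For `M = 24` the sets `A = {0,4,16,20}` and `B = {0,3,18,21}` in `{0,…,23}` form
a distributed spectral pair which is a spectral pair neither in `ℤ_24` nor in `ℤ_{24²}`. -/
theorem result : ∃ M : ℕ, 3 ≤ M ∧ ∃ A B : Finset ℤ,
    (∀ a ∈ A, 0 ≤ a ∧ a ≤ (M : ℤ) - 1) ∧ (∀ b ∈ B, 0 ≤ b ∧ b ≤ (M : ℤ) - 1) ∧
    A.card = B.card ∧ 1 < A.card ∧ A.card < M ∧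
    IsDistributed M A B ∧ ¬ IsSpectralPair M A B ∧ ¬ IsSpectralPair (M ^ 2) A B := by
  refine ⟨24, by norm_num, SA, SB, by decide, by decide, by decide, by decide, by decide,
    ?_, ?_, ?_⟩
  · intro b hb b' hb' hne
    simp only [SB, Finset.mem_insert, Finset.mem_singleton] at hb hb'
    have key : ∀ d : ℤ, (d = 18 ∨ d = -18) → ∀ c ∈ SB, ∀ c' ∈ SB,
        nuHat SA ((d : ℝ) / ((24 : ℕ) : ℝ) ^ 2 + ((c : ℝ) - c') / ((24 : ℕ) : ℝ)) = 0 := by
      intro d hd c hc c' hc'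
      have hall : ∀ c ∈ SB, ∀ c' ∈ SB, (3 : ℤ) ∣ c - c' := by decide
      have hdiv : (3 : ℤ) ∣ c - c' := hall c hc c' hc'
      obtain ⟨m, hm⟩ := hdiv
      have hm' : (c : ℝ) - c' = 3 * m := by exact_mod_cast hm
      rcases hd with rfl | rfl
      · refine zero_of16 _ (2 * m) ?_
        rw [hm']; push_cast; ring
      · refine zero_of16 _ (2 * m - 1) ?_
        rw [hm']; push_cast; ring
    rcases hb with rfl | rfl | rfl | rfl <;> rcases hb' with rfl | rfl | rfl | rfl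
    · exact absurd rfl hne
    · left; refine zero_of4 _ (-1) ?_; norm_num
    · right; intro c hc c' hc'
      have := key (-18) (Or.inr rfl) c hc c' hc'
      rw [← this]; norm_num
    · left; refine zero_of4 _ (-4) ?_; norm_num
    · left; refine zero_of4 _ 0 ?_; norm_num
    · exact absurd rfl hne
    · left; refine zero_of4 _ (-3) ?_; norm_num
    · right; intro c hc c' hc'
      have := key (-18) (Or.inr rfl) c hc c' hc'
      rw [← this]; norm_num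
    · right; intro c hc c' hc'
      have := key 18 (Or.inl rfl) c hc c' hc'
      rw [← this]; norm_num
    · left; refine zero_of4 _ 2 ?_; norm_num
    · exact absurd rfl hne
    · left; refine zero_of4 _ (-1) ?_; norm_num
    · left; refine zero_of4 _ 3 ?_; norm_num
    · right; intro c hc c' hc'
      have := key 18 (Or.inl rfl) c hc c' hc'
      rw [← this]; norm_num
    · left; refine zero_of4 _ 0 ?_; norm_num
    · exact absurd rfl hne
  · intro h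
    have h1 := h 18 (by decide) 0 (by decide) (by decide)
    rw [nuHat_SA] at h1
    have e4 : Complex.exp (-(2 * (Real.pi : ℂ) * Complex.I *
        ((4 * ((((18 : ℤ) : ℝ) - ((0 : ℤ) : ℝ)) / ((24 : ℕ) : ℝ)) : ℝ) : ℂ))) = 1 := by
      rw [show -(2 * (Real.pi : ℂ) * Complex.I *
        ((4 * ((((18 : ℤ) : ℝ) - ((0 : ℤ) : ℝ)) / ((24 : ℕ) : ℝ)) : ℝ) : ℂ))
        = ((-3 : ℤ) : ℂ) * (2 * (Real.pi : ℂ) * Complex.I) by push_cast; ring]
      exact Complex.exp_int_mul_two_pi_mul_I _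
    have e16 : Complex.exp (-(2 * (Real.pi : ℂ) * Complex.I *
        ((16 * ((((18 : ℤ) : ℝ) - ((0 : ℤ) : ℝ)) / ((24 : ℕ) : ℝ)) : ℝ) : ℂ))) = 1 := by
      rw [show -(2 * (Real.pi : ℂ) * Complex.I *
        ((16 * ((((18 : ℤ) : ℝ) - ((0 : ℤ) : ℝ)) / ((24 : ℕ) : ℝ)) : ℝ) : ℂ))
        = ((-12 : ℤ) : ℂ) * (2 * (Real.pi : ℂ) * Complex.I) by push_cast; ring]
      exact Complex.exp_int_mul_two_pi_mul_I _
    rw [e4, e16] at h1
    norm_num at h1
  · intro h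
    have h1 := h 3 (by decide) 0 (by decide) (by decide)
    rw [nuHat_SA] at h1
    have hx : (((3 : ℤ) : ℝ) - ((0 : ℤ) : ℝ)) / ((24 ^ 2 : ℕ) : ℝ) = 1 / 192 := by norm_num
    rw [hx] at h1
    have f4 := factor_ne (4 * (1 / 192)) (by norm_num) (by norm_num)
    have f16 := factor_ne (16 * (1 / 192)) (by norm_num) (by norm_num)
    rcases div_eq_zero_iff.1 h1 with h2 | h2
    · rcases mul_eq_zero.1 h2 with h3 | h3
      · exact f4 h3
      · exact f16 h3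
    · norm_num at h2

end Pool.Agent.Results.MP_2c87a3_an.ModulusTwentyFour
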